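import Pool.Agent.EV.MainA
import Pool.Agent.EV3.Restr
import Pool.Agent.NXL.AvgS

set_option autoImplicit false

/-!
# Every set of positions: few changes of the answers to monotone queries, average case
-/

namespace Pool.Agent.EV

open Finset Pool.Agent.NegLim Pool.Agent.XL Pool.Agent.NXL Pool.Agent.NTR Pool.Agent.NTN
  Pool.Agent.TeleNeg
open scoped BigOperators

/-- The constant. -/
def CB (d : ℕ) : ℕ := 8 * (d + 3) * (9 * KK * 2 ^ 16)

theorem CB_pos (d : ℕ) : 1 ≤ CB d :=
  Nat.mul_pos (Nat.mul_pos (by norm_num) (by omega)) (Nat.mul_pos (Nat.mul_pos (by norm_num) KK_pos)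
    (by norm_num))

/-- The restriction of the language to `r` blocks in a set `U` of positions. -/
theorem blocks_every {d n : ℕ} (U : Finset (Fin n)) {a N r : ℕ} (hN : N % 2 = 1)
    (hB : N * N * KK ≤ a) (hr : 1 ≤ r) (h1 : 3 * (2 * (r * a)) + 3 ≤ U.card)
    (h2 : 2 * (r * a) ≤ n / d) :
    ∃ φ : Fin n → (Fin r × Bvar (N * N) 24) ⊕ Bool, (∀ v, v ∉ U → ∃ c, φ v = .inr c) ∧
      ∀ y : Fin r × Bvar (N * N) 24 → Bool,
        EV3.elang d (List.ofFn fun v => Sum.elim y id (φ v)) = true ↔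
          ∃ i, blockF N (fun b => y (i, b)) = true := by
  obtain ⟨φ, e1, -, -, e4⟩ := EV3.elang_restrict d n (2 * (r * a)) U h1 h2
  obtain ⟨ψ, -, g2⟩ := slang_restrict 1 (2 * (r * a)) N r hN (by
    rw [Nat.div_one, Nat.mul_div_cancel_left _ (by norm_num : 0 < 2)]
    exact Nat.mul_le_mul_left _ hB) hr
  refine ⟨fun v => Sum.elim ψ Sum.inr (φ v), fun v hv => ?_, fun y => ?_⟩
  · obtain ⟨c, hc⟩ := e1 v hv
    exact ⟨c, by simp only [hc, Sum.elim_inr]⟩
  · have h4 : (fun v => (Sum.elim y id (Sum.elim ψ Sum.inr (φ v)) : Bool)) =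
        fun v => Sum.elim (fun a => (Sum.elim y id (ψ a) : Bool)) id (φ v) := by
      funext v
      rcases φ v with a | c <;> rfl
    rw [h4, e4, g2]
    exact exists_congr fun i => (blockF_iff _ _).symm

open Classical in
/-- **The language inside every set of positions, average case.** -/
theorem elang_average {d n k : ℕ} (hd : 1 ≤ d) (hk : 1 ≤ k) (U : Finset (Fin n))
    (hU : U.Nonempty) :
    ∃ (ρ : Fin n → Bool) (μ : (Fin n → Bool) → ℝ), (∀ x, 0 ≤ μ x) ∧ ∑ x, μ x = 1 ∧
      (∀ x, μ x ≠ 0 → ∀ v, v ∉ U → x v = ρ v) ∧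
      ∀ (ts : List ℕ) (T b : ℕ) (A : (Fin n → Bool) → Bool),
        ts.sum + T ≤ 2 ^ k → Tries (devClass k) U ts T b A →
        ∑ x with A x = EV3.elang d (List.ofFn x), μ x
          ≤ 1 / 2 + (1 / 2) ^ k + (T + 1) * b * (CB d * k) / U.card := by
  obtain ⟨s, hs⟩ : ∃ s, s = U.card := ⟨_, rfl⟩
  have hs1 : 1 ≤ s := by rw [hs]; exact Finset.card_pos.2 hU
  have hsn : s ≤ n := by
    have := Finset.card_le_univ U
    rw [Fintype.card_fin] at this
    omega
  rw [← hs]
  have hn' : (0 : ℝ) < s := by exact_mod_cast hs1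
  have hKK := KK_pos
  obtain ⟨c, hc⟩ : ∃ c, c = CB d * k := ⟨_, rfl⟩
  have hc0 : 0 < c := by
    rw [hc]
    exact Nat.mul_pos (CB_pos d) hk
  have hcR : ((CB d : ℝ) * k) = (c : ℝ) := by rw [hc]; push_cast; ring
  rw [hcR]
  have hc' : (0 : ℝ) < c := by exact_mod_cast hc0
  rcases Nat.lt_or_ge s c with hlt | hge
  · -- the trivial case
    have h2 : (1 : ℝ) ≤ c / s := by
      rw [one_le_div hn']
      exact_mod_cast hlt.le
    have h5 : (0 : ℝ) ≤ (1 / 2) ^ k := by positivity
    refine ⟨fun _ => false, fun x => if x = (fun _ => false) then 1 else 0, fun x => ?_, ?_, ?_, ?_⟩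
    · dsimp only
      split_ifs <;> norm_num
    · rw [Finset.sum_ite_eq' Finset.univ]
      simp
    · intro x hx v _
      have e1 : x = fun _ => false := by
        by_contra h
        exact hx (if_neg h)
      rw [e1]
    · intro ts T b A _ hA
      obtain ⟨Q, P, h, -, -, -, hch, -⟩ := hA
      have hb : 0 < b := changesOn_pos' hch
      refine (Finset.sum_le_sum_of_subset_of_nonneg (Finset.filter_subset _ _) (by
          intro x _ _
          split_ifs <;> norm_num)).trans ?_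
      rw [Finset.sum_ite_eq' Finset.univ]
      simp only [Finset.mem_univ, if_true]
      have h3 : (1 : ℝ) ≤ (T + 1) * b := by
        have e1 : (1 : ℝ) ≤ b := by exact_mod_cast hb
        have e2 : (0 : ℝ) ≤ T := by positivity
        nlinarith
      have h4 : (1 : ℝ) ≤ (T + 1) * b * c / s := by
        rw [mul_div_assoc]
        exact one_le_mul_of_one_le_of_one_le h3 h2
      linarith
  · -- the scale
    obtain ⟨a, ha⟩ : ∃ a, a = 9 * KK * (2 ^ 16 * k) := ⟨_, rfl⟩
    obtain ⟨h1, h2⟩ := NN_large (n := a) (k := 2 ^ 16 * k) (by omega) ha.ge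
    set N := NN a with hN
    have hB : N * N * KK ≤ a := NN_le a
    have hB0 : 0 < N * N * KK := Nat.mul_pos (by omega) hKK
    have hNodd : N % 2 = 1 := Nat.odd_iff.1 h2
    have ha0 : 1 ≤ a := by omega
    have hca : c = 8 * (d + 3) * a := by
      rw [hc, ha]
      unfold CB
      ring
    -- the number of blocks
    obtain ⟨r, hrd⟩ : ∃ r, r = s / c := ⟨_, rfl⟩
    have hr : 1 ≤ r := by rw [hrd]; exact (Nat.one_le_div_iff hc0).2 hge
    have hra : 1 ≤ r * a := Nat.mul_pos hr ha0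
    have hrs : 8 * (d + 3) * (r * a) ≤ s := by
      calc 8 * (d + 3) * (r * a) = s / c * c := by rw [hrd, hca]; ring
        _ ≤ s := Nat.div_mul_le_self _ _
    have hexp : 8 * (d + 3) * (r * a) = 8 * (d * (r * a)) + 24 * (r * a) := by ring
    obtain ⟨φ, f1, f3⟩ := blocks_every (d := d) U hNodd hB hr (by rw [← hs]; omega) (by
      rw [Nat.le_div_iff_mul_le (by omega)]
      have : 2 * (r * a) * d = 2 * (d * (r * a)) := by ring
      omega)
    have hcdz : Fintype.card (Bvar (N * N) 24) = N * N * 2 ^ 192 := card_vars (N * N)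
    obtain ⟨cd, hcd⟩ : ∃ cd, cd = Fintype.card (Bvar (N * N) 24) := ⟨_, rfl⟩
    have hcd1 : 1 ≤ cd := by
      rw [hcd, hcdz]
      exact Nat.mul_pos (by omega) (by positivity)
    have h5 : (0 : ℝ) < (1 / 2) ^ k := by positivity
    have h6 : ((1 / 2 : ℝ)) ^ k < 1 := pow_lt_one₀ (by norm_num) (by norm_num) (by omega)
    have hk1 : 1 ≤ 3 * cd * 4 ^ k := by
      have : 1 ≤ 4 ^ k := Nat.one_le_pow _ _ (by norm_num)
      nlinarith
    obtain ⟨i, j, e1, e2, e3, e4⟩ := exists_levels hk1 hcd1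
    have hX := expandH N h2
    have hE : ExpandH (N * N / 7) (eF N) := fun A hA => hX A (by omega)
    obtain ⟨μ, m1, m2, m3, m4⟩ := average_queries_or (U := U) hr
      (blockF N) (blockF_mono N) (fun x : Fin n → Bool => EV3.elang d (List.ofFn x) = true) φ
      f1 f3 h5 h6 (3 * cd * 4 ^ k) (by
        have h7 : ((1 / 2 : ℝ) ^ k) ^ 2 = 1 / 4 ^ k := by
          rw [← pow_mul, mul_comm, pow_mul, show (1 / 2 : ℝ) ^ 2 = 1 / 4 by norm_num, one_div_pow]
        rw [h7, ← hcd]
        push_cast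
        have h8 : (3 * (cd : ℝ) * 4 ^ k) * (1 / 4 ^ k) = 3 * (cd : ℝ) := by
          field_simp
        rw [h8])
      {H | rkF ℚ (N * N / 7) (eF N) (fun _ => 1)
        (univ.filter fun W : Fin (4 * (N * N)) → Fin 24 → ZMod 2 => ∀ j, W j ≠ 0) H ≤
        (2 ^ (3 * k) * (cd + 1) * rowKH (N * N) (4 * (N * N)) 24 (N * N / 7) : ℕ)}
      ⟨PW (eF N) 0, negIn (eF N) (fun _ => 1) 0, blockF_PW h2 0, blockF_neg N 0⟩ (by
        intro L θ hL hLS hcon
        have h7 := rkF_amplify (F := ℚ) (d := N * N / 7) (e := eF N) (fun _ => 1)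
          (univ.filter fun W : Fin (4 * (N * N)) → Fin 24 → ZMod 2 => ∀ j, W j ≠ 0) L θ hcon
          (N₀ := (2 ^ (3 * k) * (cd + 1) * rowKH (N * N) (4 * (N * N)) 24 (N * N / 7) : ℕ))
          (by positivity) hLS i j (by rw [hL]; exact e1) (by rw [← hcd]; exact e2)
        have h8 := rk_largeH hE (fun _ => 1) (by omega) (by omega) (blockF_PW h2) (blockF_neg N)
          (Q := 5 ^ (2 * i + j + 2) * (2 ^ (3 * k) * (cd + 1))) (by
            refine h7.trans (le_of_eq ?_)
            push_cast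
            ring)
        rw [hcd, hcdz] at e3 e4 h8
        have h11 := num_thrH hk h1 e3 e4
        exact absurd (lt_of_le_of_lt h8 h11) (lt_irrefl _))
    refine ⟨fun v => Sum.elim (fun _ => false) id (φ v), μ, m1, m2,
      fun x hx v hv => ?_, fun ts T b A hq hA => ?_⟩
    · obtain ⟨c', hc'⟩ := f1 v hv
      rw [m3 x hx v c' hc']
      show c' = Sum.elim (fun _ => false) id (φ v)
      rw [hc']
      rfl
    have h11 := m4 (devClass k) ts T b A (fun H hH => by
      have h12 := orSet_dev_rkH ℚ (fun _ => 1)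
        (univ.filter fun W : Fin (4 * (N * N)) → Fin 24 → ZMod 2 => ∀ j, W j ≠ 0) hE
        (by omega) hq hH
      rw [← hcd] at h12
      exact h12) hA
    refine (le_of_eq (sum_filter_iff' μ _ _ _ _ fun x => ?_)).trans (h11.trans ?_)
    · exact Bool.eq_iff_iff
    have hr' : (0 : ℝ) < (r : ℕ) := by exact_mod_cast hr
    have h12 : (s : ℝ) ≤ 2 * c * (r : ℕ) := by
      have h2 : s < c * (s / c + 1) := Nat.lt_mul_div_succ s hc0
      rw [← hrd, mul_add, mul_one] at h2
      have h3 : c ≤ c * r := Nat.le_mul_of_pos_right _ hr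
      have h4 : s ≤ 2 * c * r := by
        rw [mul_assoc]
        omega
      exact_mod_cast h4
    have h13 : ((T : ℝ) + 1) * b / (2 * (r : ℕ)) ≤ (T + 1) * b * c / s := by
      rw [div_le_div_iff₀ (by positivity) hn']
      have h6 : (0 : ℝ) ≤ (T + 1) * b := by positivity
      calc ((T : ℝ) + 1) * b * s ≤ (T + 1) * b * (2 * c * (r : ℕ)) :=
            mul_le_mul_of_nonneg_left h12 h6
        _ = (T + 1) * b * c * (2 * (r : ℕ)) := by ring
    linarith

end Pool.Agent.EV
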