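import Pool.Agent.NXL.Hard2

set_option autoImplicit false

/-!
# Small devices must see many zeros in every set of positions: the hard inputs
-/

namespace Pool.Agent.EV

open Finset Pool.Agent.XL Pool.Agent.TeleNeg Pool.Agent.NTR.Gen Pool.Agent.NWE Pool.Agent.GB24.Loc
  Pool.Agent.NXL

/-- The inputs of the literals, the zeros in `U` hidden but those in `Z`. -/
theorem litsOn_eqU {ι : Type} [DecidableEq ι] (U Z : Finset ι) (x : ι → Bool) :
    (Sum.elim x fun v => if v ∈ U then decide (v ∈ Z) else !x v) = litsOn U Z x := by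
  funext s
  rcases s with v | v
  · rfl
  · simp only [litsOn, Sum.elim_inr]
    by_cases h : v ∈ U <;> by_cases h' : v ∈ Z <;> simp [h, h']

/-- **The hard inputs of a function which contains the explicit system on a set `U` of
variables.** -/
theorem hard_every {N k : ℕ} {ι : Type} [Fintype ι] [DecidableEq ι] (hN : Odd N) (hk : 1 ≤ k)
    (hkN : 2 ^ 16 * k ≤ N * N)
    (g : (Bvar (N * N) 24 → Bool) → Prop) (hg : ∀ u v, u ≤ v → g u → g v)
    (hsound : ∀ u, g u → incon (eF N) (fun _ => 1) u = true)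
    (hPW : ∀ W, g (PW (eF N) W))
    (f : (ι → Bool) → Prop) (U : Finset ι) (φ : ι → Bvar (N * N) 24 ⊕ Bool)
    (hφU : ∀ v, v ∉ U → ∃ c, φ v = Sum.inr c)
    (hφs : ∀ e, ∃ v, φ v = Sum.inl e) (hφ : ∀ x, f (fun v => Sum.elim x id (φ v)) ↔ g x) :
    ∃ (ρ : ι → Bool) (H : Finset (ι → Bool)), H.Nonempty ∧
      (∀ x ∈ H, f x ∧ ∀ v, v ∉ U → x v = ρ v) ∧
      ∀ (t : ℕ) (G : (Fin t → Bool) → (ι ⊕ ι → Bool) → Bool), (∀ y, Small2 k (G y)) →
        (∀ y x, (∀ v, v ∉ U → x v = ρ v) → G y (lits x) = true → f x) →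
        ∀ A ⊆ H, (∀ x ∈ A, ∃ (y : Fin t → Bool) (Z : Finset ι), Z ⊆ U ∧
          (∀ v ∈ Z, x v = false) ∧ t + Z.card ≤ k ∧ G y (litsOn U Z x) = true) →
        2 ^ k * A.card ≤ H.card := by
  classical
  obtain ⟨q, hq⟩ : ∃ q, q = N * N / 16 := ⟨_, rfl⟩
  have hq1 : 16 * q ≤ N * N := by omega
  have hq2 : N * N ≤ 17 * q := by omega
  have hq3 : 4096 * k ≤ q := by omega
  have hcard := card_vars (N * N)
  set R := univ.filter fun W : Fin (4 * (N * N)) → Fin 24 → ZMod 2 => ∀ j, W j ≠ 0 with hR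
  have hRc : R.card = (2 ^ 24 - 1) ^ (4 * (N * N)) := card_pos_inputs (4 * (N * N)) 24
  obtain ⟨ρ, M, h1, h2, h3⟩ := hardSet_bin (smallClass2 k) (Q := 2 ^ (12 * q)) g hg
    (R.map ⟨PW (eF N), PW_injective (occurs N)⟩) (by
      rw [Finset.map_nonempty, ← Finset.card_pos, hRc]
      positivity) (by
      intro u hu
      obtain ⟨W, -, rfl⟩ := Finset.mem_map.1 hu
      exact hPW W) (by
      intro G hG hle
      have h4 := few_smallH2 (k := k) (expandH N hN) (by omega) (by omega) hq1 hq2 (fun _ => 1) G hG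
        fun u hu => hsound u (hle u hu)
      rw [Finset.card_map, hRc]
      refine le_trans (le_of_eq ?_) h4
      congr 1
      rw [Finset.filter_map, Finset.card_map]
      congr 1
      ext W
      simp only [hR, Finset.mem_filter, Finset.mem_univ, true_and, Function.comp_apply,
        Function.Embedding.coeFn_mk])
    f U φ hφs hφU hφ
    (fun D => ∃ F, (smallClass2 k).mem _ F ∧ ∀ p, D p = F (known p)) (fun D h => h)
  refine ⟨ρ, M, h1, h2, fun t G hG hs A hA hacc => ?_⟩
  rcases A.eq_empty_or_nonempty with rfl | hAne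
  · simp
  obtain ⟨z₀, hz₀⟩ := hAne
  obtain ⟨_, _, _, _, ht, _⟩ := hacc z₀ hz₀
  have htk : t ≤ k := by omega
  have h4 := h3 (Fin t → Bool) (k - t) (fun y p => G y (known p))
    (fun y => ⟨G y, hG y, fun _ => rfl⟩) (fun y x hx hy => by
      refine hs y x hx ?_
      rw [known_some] at hy
      exact hy)
  have h5 : A.card ≤ {x | x ∈ M ∧ AccSees U (k - t) (fun y p => G y (known p)) x}.ncard := by
    rw [← Set.ncard_coe_finset]
    refine Set.ncard_le_ncard ?_ (M.finite_toSet.subset fun x hx => hx.1)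
    intro z hz
    obtain ⟨y, Z, hZU, hZ0, hZc, hy⟩ := hacc z hz
    refine ⟨hA hz, y, Z, hZU, by omega, hZ0, ?_⟩
    change G y (known (NWE.hide U Z z)) = true
    rw [known_hide U Z z hZ0, litsOn_eqU]
    exact hy
  have h6 : (univ.filter fun Z : Finset (Bvar (N * N) 24) => Z.card ≤ k - t).card ≤
      2 ^ (3 * q) := count_subsets_of (by rw [hcard]; exact Nat.mul_le_mul_right _ (by omega))
        (by omega)
  have h7 : Fintype.card (Fin t → Bool) = 2 ^ t := by simp
  have h8 : 2 ^ (12 * q) * A.card ≤ 2 ^ t * 2 ^ (3 * q) * M.card := by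
    refine (Nat.mul_le_mul_left _ h5).trans (h4.trans ?_)
    rw [h7]
    gcongr
  have h9 : 2 ^ (12 * q) = 2 ^ t * 2 ^ (3 * q) * (2 ^ k * 2 ^ (9 * q - t - k)) := by
    rw [← pow_add, ← pow_add, ← pow_add]
    congr 1
    omega
  rw [h9, mul_assoc] at h8
  have h10 := Nat.le_of_mul_le_mul_left h8 (by positivity)
  refine le_trans ?_ h10
  rw [mul_assoc]
  exact Nat.mul_le_mul_left _ (Nat.le_mul_of_pos_left _ (by positivity))

end Pool.Agent.EV
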