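import Pool.Agent.EV.HardE
import Pool.Agent.NXL.LangS

set_option autoImplicit false

/-!
# Small devices must see many zeros in every set of positions
-/

namespace Pool.Agent.EV

open Finset Pool.Agent.NegLim Pool.Agent.XL Pool.Agent.NWE Pool.Agent.NXL

/-- The size of the block for `k`. -/
def mk (k : ℕ) : ℕ := 2 * (9 * KK * (2 ^ 16 * k))

/-- A language which contains `slang 1` on every set of positions contains the block function on
every set of positions. -/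
theorem block_every {L : List Bool → Bool} {n k : ℕ} (hk : 1 ≤ k) (U : Finset (Fin n))
    (hL : ∃ φ : Fin n → Fin (mk k) ⊕ Bool, (∀ v, v ∉ U → ∃ c, φ v = .inr c) ∧
      (∀ a, ∃ v, φ v = .inl a) ∧
      ∀ z : Fin (mk k) → Bool, L (List.ofFn fun v => Sum.elim z id (φ v)) = slang 1 (List.ofFn z)) :
    ∃ N : ℕ, Odd N ∧ 2 ^ 16 * k ≤ N * N ∧ ∃ φ : Fin n → Bvar (N * N) 24 ⊕ Bool,
      (∀ v, v ∉ U → ∃ c, φ v = .inr c) ∧ (∀ e, ∃ v, φ v = .inl e) ∧
      ∀ x : Bvar (N * N) 24 → Bool, L (List.ofFn fun v => Sum.elim x id (φ v)) = true ↔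
        ∃ w, Cert N (word N x) w := by
  classical
  obtain ⟨φ, h1, h2, h3⟩ := hL
  obtain ⟨e1, e2⟩ := NN_large (n := 9 * KK * (2 ^ 16 * k)) (k := 2 ^ 16 * k) (by omega) le_rfl
  set N := NN (9 * KK * (2 ^ 16 * k)) with hN
  have e3 : N * N * KK ≤ 9 * KK * (2 ^ 16 * k) := NN_le _
  obtain ⟨ψ, g1, g2⟩ := slang_restrict 1 (mk k) N 1 (Nat.odd_iff.1 e2) (by
    rw [Nat.div_one, Nat.le_div_iff_mul_le (by norm_num), one_mul]
    unfold mk
    omega) le_rfl
  refine ⟨N, e2, e1, fun v => Sum.elim (fun a => Sum.map Prod.snd id (ψ a)) Sum.inr (φ v),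
    ?_, ?_, fun x => ?_⟩
  · intro v hv
    obtain ⟨c, hc⟩ := h1 v hv
    exact ⟨c, by simp only [hc, Sum.elim_inr]⟩
  · intro e
    obtain ⟨a, ha⟩ := g1 (0, e)
    obtain ⟨v, hv⟩ := h2 a
    exact ⟨v, by simp only [hv, Sum.elim_inl, ha, Sum.map_inl]⟩
  · have h4 : (fun v => (Sum.elim x id
        (Sum.elim (fun a => Sum.map Prod.snd id (ψ a)) Sum.inr (φ v)) : Bool)) =
        fun v => Sum.elim (fun a => (Sum.elim (fun p : Fin 1 × Bvar (N * N) 24 => x p.2) id (ψ a) : Bool))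
          id (φ v) := by
      funext v
      rcases φ v with a | c
      · simp only [Sum.elim_inl]
        rcases ψ a with p | c <;> rfl
      · rfl
    rw [h4, h3, g2]
    constructor
    · rintro ⟨_, w, hw⟩
      exact ⟨w, hw⟩
    · rintro ⟨w, hw⟩
      exact ⟨0, w, hw⟩

/-- **Main theorem**, from the restrictions of the language. -/
theorem every_of {L : List Bool → Bool} {n k : ℕ} (hk : 1 ≤ k) (U : Finset (Fin n))
    (hL : ∃ φ : Fin n → Fin (mk k) ⊕ Bool, (∀ v, v ∉ U → ∃ c, φ v = .inr c) ∧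
      (∀ a, ∃ v, φ v = .inl a) ∧
      ∀ z : Fin (mk k) → Bool, L (List.ofFn fun v => Sum.elim z id (φ v)) = slang 1 (List.ofFn z)) :
    ∃ (ρ : Fin n → Bool) (H : Finset (Fin n → Bool)), H.Nonempty ∧
      (∀ x ∈ H, L (List.ofFn x) = true ∧ ∀ v, v ∉ U → x v = ρ v) ∧
      ∀ (t : ℕ) (D : (Fin t → Bool) → (Fin n ⊕ Fin n → Bool) → Bool), (∀ y, Small2 k (D y)) →
        (∀ y x, (∀ v, v ∉ U → x v = ρ v) → D y (lits x) = true → L (List.ofFn x) = true) →
        ∀ A ⊆ H, (∀ x ∈ A, ∃ (y : Fin t → Bool) (Z : Finset (Fin n)), Z ⊆ U ∧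
          (∀ v ∈ Z, x v = false) ∧ t + Z.card ≤ k ∧ D y (litsOn U Z x) = true) →
        2 ^ k * A.card ≤ H.card := by
  obtain ⟨N, e2, e1, φ, h1, h2, h3⟩ := block_every hk U hL
  refine hard_every (N := N) e2 hk e1 (fun u => ∃ w, Cert N (word N u) w) ?_ ?_ ?_
    (fun x => L (List.ofFn x) = true) U φ h1 h2 h3
  · rintro u v huv ⟨w, hw⟩
    refine ⟨w, cert_mono (fun a ha h => ?_) hw⟩
    have e : a = KK * (a / KK) + a % KK := (Nat.div_add_mod a KK).symm
    have hi : a / KK < N * N := Nat.div_lt_of_lt_mul (by rwa [mul_comm] at ha)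
    have hl : a % KK < KK := Nat.mod_lt _ KK_pos
    rw [e, word_of_lt _ hi hl] at h ⊢
    exact Bool.le_iff_imp.mp (huv _) h
  · rintro u ⟨w, hw⟩
    exact cert_sound hw
  · intro W
    exact ⟨_, cert_PW W e2⟩

/-- The constant. -/
def CE (d : ℕ) : ℕ := (d + 5) * (2 * (9 * KK * 2 ^ 16))

theorem CE_pos (d : ℕ) : 1 ≤ CE d :=
  Nat.mul_pos (by omega) (Nat.mul_pos (by norm_num) (Nat.mul_pos (Nat.mul_pos (by norm_num) KK_pos)
    (by norm_num)))

theorem mk_pos {k : ℕ} (hk : 1 ≤ k) : 1 ≤ mk k :=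
  Nat.mul_pos (by norm_num) (Nat.mul_pos (Nat.mul_pos (by norm_num) KK_pos)
    (Nat.mul_pos (by norm_num) hk))

/-- The numbers. -/
theorem CE_room {d n k : ℕ} (hd : 1 ≤ d) (hk : 1 ≤ k) (U : Finset (Fin n))
    (hU : CE d * k ≤ U.card) : 3 * mk k + 3 ≤ U.card ∧ mk k ≤ n / d := by
  have h1 : CE d * k = (d + 5) * mk k := by
    unfold CE mk
    ring
  have h2 := mk_pos hk
  have h3 : U.card ≤ n := by
    have := Finset.card_le_univ U
    rwa [Fintype.card_fin] at this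
  rw [h1] at hU
  have h4 : (d + 5) * mk k = d * mk k + 5 * mk k := by ring
  have h5 : mk k ≤ d * mk k := Nat.le_mul_of_pos_left _ hd
  constructor
  · omega
  · rw [Nat.le_div_iff_mul_le (by omega), mul_comm]
    omega

end Pool.Agent.EV
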