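import Pool.Agent.EV.AvgE
import Pool.Agent.XL.NotGatesR
import Pool.Agent.XL.WideNets

set_option autoImplicit false

/-!
# A monotone language in NP: NOT gates inside every set of positions
-/

namespace Pool.Agent.EV

open Finset Pool.Agent.NegLim Pool.Agent.XL Pool.Agent.NTR Pool.Agent.NTN Pool.Agent.TeleNeg
  Pool.Agent.NWE
open scoped BigOperators

open Classical in
/-- **Few NOT gates, few changes of the answers to monotone queries inside a set of positions.** -/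
theorem not_gates_every :
    ∃ (C : ℕ) (L : List Bool → Bool), 1 ≤ C ∧ InNP L ∧
      (∃ c : ℕ, DecidableInTime L (fun n => c * 2 ^ n)) ∧
      (∀ n : ℕ, Monotone fun x : Fin n → Bool => L (List.ofFn x)) ∧
      ∀ (n k : ℕ) (U : Finset (Fin n)), U.Nonempty → 1 ≤ k →
        ∃ (ρ : Fin n → Bool) (μ : (Fin n → Bool) → ℝ), (∀ x, 0 ≤ μ x) ∧ ∑ x, μ x = 1 ∧
          (∀ x, μ x ≠ 0 → ∀ v, v ∉ U → x v = ρ v) ∧
          (∀ (t : ℕ) (A : (Fin n → Bool) → Bool), t < 2 ^ k → NotGatesOn (devClass k) U t A →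
            ∑ x with A x = L (List.ofFn x), μ x
              ≤ 1 / 2 + (1 / 2) ^ k + 2 ^ t * (C * k) / U.card) ∧
          ∀ (ts : List ℕ) (b : ℕ) (A : (Fin n → Bool) → Bool), ts.sum < 2 ^ k →
            Tries (devClass k) U ts 1 b A →
            ∑ x with A x = L (List.ofFn x), μ x
              ≤ 1 / 2 + (1 / 2) ^ k + b * (C * k) / U.card := by
  obtain ⟨d, hd, c, hc⟩ := EV3.elang_time
  refine ⟨2 * CB d, EV3.elang d, ?_, EV3.elang_inNP d, ⟨c, hc⟩, EV3.elang_mono d,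
    fun n k U hU hk => ?_⟩
  · have := CB_pos d
    omega
  obtain ⟨ρ, μ, m1, m2, m3, m4⟩ := elang_average (n := n) hd hk U hU
  have key : ∀ (ts : List ℕ) (b : ℕ) (A : (Fin n → Bool) → Bool), ts.sum < 2 ^ k →
      Tries (devClass k) U ts 1 b A →
      ∑ x with A x = EV3.elang d (List.ofFn x), μ x
        ≤ 1 / 2 + (1 / 2) ^ k + b * ((2 * CB d : ℕ) * k) / U.card := by
    intro ts b A hts hA
    refine (m4 ts 1 b A hts hA).trans (le_of_eq ?_)
    generalize CB d = e
    push_cast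
    ring
  refine ⟨ρ, μ, m1, m2, m3, fun t A ht hA => ?_, key⟩
  obtain ⟨B, hB, hAB⟩ := hA.fix ρ
  obtain ⟨ts, b, h1, h2, h3⟩ := hB.tries U
  have h0 : ∑ x with A x = EV3.elang d (List.ofFn x), μ x
      = ∑ x with B x = EV3.elang d (List.ofFn x), μ x := by
    rw [Finset.sum_filter, Finset.sum_filter]
    refine Finset.sum_congr rfl fun x _ => ?_
    by_cases hx : μ x = 0
    · simp [hx]
    · rw [hAB x (m3 x hx)]
  rw [h0]
  refine (key ts b B (by rw [h1]; exact ht) h3).trans ?_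
  have h4 : (b : ℝ) ≤ 2 ^ t := by exact_mod_cast h2
  have h5 : (0 : ℝ) ≤ (2 * CB d : ℕ) * k := by positivity
  have h6 : (0 : ℝ) ≤ (U.card : ℝ) := by positivity
  have h7 : (b : ℝ) * ((2 * CB d : ℕ) * k) / U.card ≤ 2 ^ t * ((2 * CB d : ℕ) * k) / U.card :=
    div_le_div_of_nonneg_right (mul_le_mul_of_nonneg_right h4 h5) h6
  linarith

/-- **The converse**: `⌊log₂ (|U| / d)⌋ + 1` NOT gates suffice. -/
theorem not_gates_suffice_every {n S d : ℕ} (U : Finset (Fin n)) (hd : 1 ≤ d) (hdU : d ≤ U.card) :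
    (∀ M : Net (Fin n ⊕ Fin n) S, (1 < d → Monotone fun x => M.val (lits x)) →
      NotGatesOn (Gen.netClass (2 ^ 32 * U.card ^ 9 * (4 * n * S ^ 2) ^ d)) U
        (Nat.log 2 (U.card / d) + 1) fun x => M.val (lits x)) ∧
    (∀ M : Net (Fin n ⊕ Fin n) S, (1 < d → Monotone fun x => M.dval (lits x)) →
      NotGatesOn (Gen.dnetClass (2 ^ 32 * U.card ^ 9 * (4 * n * S ^ 2) ^ d)) U
        (Nat.log 2 (U.card / d) + 1) fun x => M.dval (lits x)) ∧
    ∀ M : CompCirc (Fin n ⊕ Fin n) S, (1 < d → Monotone fun x => M.val (lits x)) →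
      NotGatesOn (compClass (2 ^ 16 * U.card ^ 5 * S ^ d)) U
        (Nat.log 2 (U.card / d) + 1) fun x => M.val (lits x) := by
  refine ⟨fun M hf => ?_, fun M hf => ?_, fun M hf => notGatesOn_comp U hd hdU M hf⟩
  · have h := notGatesOn_net U hd hdU M hf
    rwa [Fintype.card_fin] at h
  · have h := notGatesOn_dnet U hd hdU M hf
    rwa [Fintype.card_fin] at h

end Pool.Agent.EV
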