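import Pool.Agent.EV.MainA
import Pool.Agent.EV3.Restr

set_option autoImplicit false

/-!
# A monotone language in NP: small devices must see many zeros in every set of positions
-/

namespace Pool.Agent.EV

open Finset Pool.Agent.NegLim Pool.Agent.XL Pool.Agent.NWE Pool.Agent.NXL

/-- **Every set of positions.** -/
theorem main_every : ∃ (C : ℕ) (L : List Bool → Bool), 1 ≤ C ∧ InNP L ∧
    (∃ c : ℕ, DecidableInTime L (fun n => c * 2 ^ n)) ∧
    (∀ n : ℕ, Monotone fun x : Fin n → Bool => L (List.ofFn x)) ∧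
    ∀ (n k : ℕ) (U : Finset (Fin n)), 1 ≤ k → C * k ≤ U.card →
      ∃ (ρ : Fin n → Bool) (H : Finset (Fin n → Bool)), H.Nonempty ∧
        (∀ x ∈ H, L (List.ofFn x) = true ∧ ∀ v, v ∉ U → x v = ρ v) ∧
        ∀ (t : ℕ) (D : (Fin t → Bool) → (Fin n ⊕ Fin n → Bool) → Bool),
          (∀ y, Small2 k (D y)) →
          (∀ y x, (∀ v, v ∉ U → x v = ρ v) → D y (lits x) = true → L (List.ofFn x) = true) →
          ∀ A ⊆ H, (∀ x ∈ A, ∃ (y : Fin t → Bool) (Z : Finset (Fin n)), Z ⊆ U ∧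
            (∀ v ∈ Z, x v = false) ∧ t + Z.card ≤ k ∧ D y (litsOn U Z x) = true) →
          2 ^ k * A.card ≤ H.card := by
  obtain ⟨d, hd, c, hc⟩ := EV3.elang_time
  refine ⟨CE d, EV3.elang d, CE_pos d, EV3.elang_inNP d, ⟨c, hc⟩, EV3.elang_mono d,
    fun n k U hk hU => every_of hk U ?_⟩
  have h1 : CE d * k = (d + 5) * mk k := by
    unfold CE mk
    ring
  have h2 := mk_pos hk
  have h3 : mk k ≤ n / d := (CE_room hd hk U hU).2
  have h4 : 3 * mk k + 3 ≤ U.card := by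
    have h5 : (d + 5) * mk k = d * mk k + 5 * mk k := by ring
    have h6 : mk k ≤ d * mk k := Nat.le_mul_of_pos_left _ hd
    omega
  obtain ⟨φ, e1, e2, -, e4⟩ := EV3.elang_restrict d n (mk k) U h4 h3
  exact ⟨φ, e1, e2, e4⟩

end Pool.Agent.EV
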